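import Pool.Agent.TS.Defs

/-!
# TS/S-Prod: products of marks

PLAN (paper 1.1, 1.2).  `pc_mul`: `X = (G ⧸ H) × (G ⧸ K)` with the diagonal action: `pch G X = pc H * pc K` (`fx X U` is the product of the sets of fixed points), and `mem_of_orbits'` (H73/DU/Basic): the stabilizer of
`(a H, b K)` is `a H a⁻¹ ⊓ b K b⁻¹` (every element of `G ⧸ H` is a class: `QuotientGroup.induction_on`; `cj` of DU/Ind: `cj b K = b⁻¹ K b`), whose `pc` is that of `H ⊓ (a⁻¹ b) K (a⁻¹ b)⁻¹ = H ⊓ cj (b⁻¹ * a) K` (`pc_conj`).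
-/

namespace Pool.Agent.TS

open MulAction Pool.Agent.H73.DU

variable {G : Type} [Group G]

private theorem prodPch (X Y : Type) [MulAction G X] [MulAction G Y] :
    pch G (X × Y) = pch G X * pch G Y := by
  funext U
  rw [Pi.mul_apply]
  unfold pch
  rw [← Nat.cast_mul, ← Nat.card_prod]
  congr 1
  refine Nat.card_congr
    { toFun := fun x => (⟨x.1.1, fun u hu => congrArg Prod.fst (x.2 u hu)⟩,
        ⟨x.1.2, fun u hu => congrArg Prod.snd (x.2 u hu)⟩)
      invFun := fun y => ⟨(y.1.1, y.2.1), fun u hu => Prod.ext (y.1.2 u hu) (y.2.2 u hu)⟩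
      left_inv := fun _ => rfl
      right_inv := fun _ => rfl }

private theorem prodStab (H K : Subgroup G) (a b : G) :
    stabilizer G (((a : G) : G ⧸ H), ((b : G) : G ⧸ K)) =
      (H ⊓ cj (b⁻¹ * a) K).map (MulAut.conj a).toMonoidHom := by
  ext g
  rw [mem_stabilizer_iff, Subgroup.mem_map, Prod.smul_mk, Prod.mk.injEq]
  have h1 : (g • ((a : G) : G ⧸ H) = (a : G)) ↔ a⁻¹ * g * a ∈ H := by
    change (((g * a : G) : G ⧸ H) = a) ↔ _
    rw [eq_comm, QuotientGroup.eq, ← mul_assoc]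
  have h2 : (g • ((b : G) : G ⧸ K) = (b : G)) ↔ b⁻¹ * g * b ∈ K := by
    change (((g * b : G) : G ⧸ K) = b) ↔ _
    rw [eq_comm, QuotientGroup.eq, ← mul_assoc]
  rw [h1, h2]
  constructor
  · rintro ⟨h3, h4⟩
    refine ⟨a⁻¹ * g * a, Subgroup.mem_inf.2 ⟨h3, ?_⟩, ?_⟩
    · rw [mem_cj_iff]
      exact ⟨b⁻¹ * g * b, h4, by group⟩
    · change a * (a⁻¹ * g * a) * a⁻¹ = g
      group
  · rintro ⟨x, hx, rfl⟩
    obtain ⟨h3, h4⟩ := Subgroup.mem_inf.1 hx
    obtain ⟨u, hu, hu'⟩ := mem_cj_iff.1 h4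
    constructor
    · have h5 : a⁻¹ * (MulAut.conj a).toMonoidHom x * a = x := by
        change a⁻¹ * (a * x * a⁻¹) * a = x
        group
      rw [h5]
      exact h3
    · have h5 : b⁻¹ * (MulAut.conj a).toMonoidHom x * b = u := by
        change b⁻¹ * (a * x * a⁻¹) * b = u
        rw [← hu']
        group
      rw [h5]
      exact hu

theorem pc_mul (H K : Subgroup G) [Finite (G ⧸ H)] [Finite (G ⧸ K)]
    (Q : AddSubgroup (Subgroup G → ℤ)) (h : ∀ b : G, pc (H ⊓ cj b K) ∈ Q) :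
    pc H * pc K ∈ Q := by
  have h1 : pc H * pc K = pch G ((G ⧸ H) × (G ⧸ K)) := (prodPch _ _).symm
  rw [h1]
  refine mem_of_orbits' _ Q fun x => ?_
  obtain ⟨x1, x2⟩ := x
  induction x1 using QuotientGroup.induction_on with
  | H a =>
    induction x2 using QuotientGroup.induction_on with
    | H b =>
      rw [prodStab, pc_conj]
      exact h _

end Pool.Agent.TS
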