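import Pool.Agent.TS.Defs

/-!
# TS/S-Bool: the square of a mark (paper 1.2)

`X` is the set of pairs of distinct points of `G ⧸ H`, a `SubMulAction` of the product.  `pch G X = pc H * pc H - pc H`.
`pch_eq_sum`: `pch G X` is the sum over the orbits `ω` of `pc (stabilizer G ω.out)`.  Modulo `Q` the involution of the orbits
induced by the swap pairs the terms (`Finset.sum_involution`): every point has a translate with stabilizer `H ⊓ cj c H`, so twice the
term is in `Q`; at an orbit fixed by the swap the stabilizer has index two in the stabilizer of the unordered pair, so the term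
itself is in `Q`.
-/

namespace Pool.Agent.TS

open MulAction Pool.Agent.H73.DU

variable {G : Type} [Group G]

/-- pairs of distinct points -/
private def tsbX (H : Subgroup G) : SubMulAction G ((G ⧸ H) × (G ⧸ H)) where
  carrier := {z | z.1 ≠ z.2}
  smul_mem' := by
    intro g z hz h
    apply hz
    have h' : g • z.1 = g • z.2 := h
    exact smul_left_cancel g h'

/-- the swap -/
private def tsbS {H : Subgroup G} (z : tsbX H) : tsbX H := ⟨(z.1.2, z.1.1), fun h => z.2 h.symm⟩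

private theorem tsbS_S {H : Subgroup G} (z : tsbX H) : tsbS (tsbS z) = z := by
  apply Subtype.ext
  rfl

private theorem tsbS_smul {H : Subgroup G} (g : G) (z : tsbX H) : tsbS (g • z) = g • tsbS z := by
  apply Subtype.ext
  rfl

private theorem tsbS_ne {H : Subgroup G} (z : tsbX H) : tsbS z ≠ z := by
  intro h
  apply z.2
  have h1 : (tsbS z).1.1 = z.1.1 := by rw [h]
  exact h1.symm

private theorem tsb_stab_S {H : Subgroup G} (z : tsbX H) :
    stabilizer G (tsbS z) = stabilizer G z := by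
  ext g
  rw [mem_stabilizer_iff, mem_stabilizer_iff, ← tsbS_smul]
  constructor
  · intro h
    have h1 := congrArg tsbS h
    rwa [tsbS_S, tsbS_S] at h1
  · intro h
    rw [h]

private theorem tsb_pc_smul {H : Subgroup G} (g : G) (z : tsbX H) :
    pc (stabilizer G (g • z)) = pc (stabilizer G z) := by
  rw [stabilizer_smul_eq_stabilizer_map_conj, pc_conj]

private theorem tsb_rep {H : Subgroup G} (z : tsbX H) :
    ∃ h c : G, stabilizer G (h • z) = H ⊓ cj c H := by
  obtain ⟨⟨x, y⟩, hz⟩ := z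
  obtain ⟨a, rfl⟩ := QuotientGroup.mk_surjective x
  obtain ⟨b, rfl⟩ := QuotientGroup.mk_surjective y
  refine ⟨b⁻¹, a⁻¹ * b, ?_⟩
  ext g
  have h1 : g ∈ stabilizer G (b⁻¹ • (⟨((a : G ⧸ H), (b : G ⧸ H)), hz⟩ : tsbX H)) ↔
      ((g * (b⁻¹ * a) : G) : G ⧸ H) = ((b⁻¹ * a : G) : G ⧸ H) ∧
      ((g * (b⁻¹ * b) : G) : G ⧸ H) = ((b⁻¹ * b : G) : G ⧸ H) := by
    rw [mem_stabilizer_iff, Subtype.ext_iff, Prod.ext_iff]
    exact Iff.rfl
  rw [h1, Subgroup.mem_inf, mem_cj_iff, and_comm]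
  refine and_congr ?_ ?_
  · rw [QuotientGroup.eq]
    have h2 : (g * (b⁻¹ * b))⁻¹ * (b⁻¹ * b) = g⁻¹ := by group
    rw [h2, inv_mem_iff]
  · rw [QuotientGroup.eq]
    constructor
    · intro h
      refine ⟨_, H.inv_mem h, ?_⟩
      group
    · rintro ⟨u, hu, rfl⟩
      have h2 : ((a⁻¹ * b)⁻¹ * u * (a⁻¹ * b) * (b⁻¹ * a))⁻¹ * (b⁻¹ * a) = u⁻¹ := by group
      rw [h2]
      exact H.inv_mem hu

/-- the stabilizer of the unordered pair -/
private def tsbY {H : Subgroup G} (z : tsbX H) : Subgroup G where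
  carrier := {y | y • z = z ∨ y • z = tsbS z}
  mul_mem' := by
    rintro x y hx (hy | hy)
    · change (x * y) • z = z ∨ (x * y) • z = tsbS z
      rw [mul_smul, hy]
      exact hx
    · change (x * y) • z = z ∨ (x * y) • z = tsbS z
      rw [mul_smul, hy, ← tsbS_smul]
      rcases hx with hx | hx
      · right
        rw [hx]
      · left
        rw [hx, tsbS_S]
  one_mem' := Or.inl (one_smul G z)
  inv_mem' := by
    rintro x (hx | hx)
    · left
      rw [inv_smul_eq_iff, hx]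
    · right
      rw [inv_smul_eq_iff, ← tsbS_smul, hx, tsbS_S]

private theorem tsb_rel {H : Subgroup G} (z : tsbX H) (g : G) (hg : g • z = tsbS z) :
    stabilizer G z ≤ tsbY z ∧ (stabilizer G z).relIndex (tsbY z) = 2 := by
  constructor
  · intro y hy
    exact Or.inl hy
  · rw [Subgroup.relIndex_eq_two_iff]
    refine ⟨g, Or.inr hg, ?_⟩
    intro b hb
    rw [mem_stabilizer_iff, mem_stabilizer_iff, mul_smul, hg, ← tsbS_smul]
    rcases hb with hb | hb
    · right
      refine ⟨hb, ?_⟩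
      rw [hb]
      exact tsbS_ne z
    · left
      refine ⟨?_, ?_⟩
      · rw [hb, tsbS_S]
      · rw [hb]
        exact tsbS_ne z

private theorem tsb_pch (H : Subgroup G) [Finite (G ⧸ H)] :
    pch G (tsbX H) = pc H * pc H - pc H := by
  classical
  funext U
  rw [Pi.sub_apply, Pi.mul_apply]
  unfold pc pch
  have h1 : Nat.card (fx (G ⧸ H) U × fx (G ⧸ H) U) =
      Nat.card {z : fx (G ⧸ H) U × fx (G ⧸ H) U // z.1 = z.2} +
      Nat.card {z : fx (G ⧸ H) U × fx (G ⧸ H) U // ¬ z.1 = z.2} := by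
    rw [← Nat.card_sum]
    exact Nat.card_congr (Equiv.sumCompl _).symm
  have h2 : Nat.card {z : fx (G ⧸ H) U × fx (G ⧸ H) U // z.1 = z.2} = Nat.card (fx (G ⧸ H) U) := by
    refine Nat.card_congr ⟨fun z => z.1.1, fun x => ⟨(x, x), rfl⟩, ?_, ?_⟩
    · rintro ⟨⟨x, y⟩, h⟩
      apply Subtype.ext
      exact Prod.ext rfl h
    · intro x
      rfl
  have h3 : Nat.card {z : fx (G ⧸ H) U × fx (G ⧸ H) U // ¬ z.1 = z.2} =
      Nat.card (fx (tsbX H) U) := by
    refine Nat.card_congr ⟨fun z => ⟨⟨(z.1.1.1, z.1.2.1), fun h => z.2 (Subtype.ext h)⟩, ?_⟩,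
      fun w => ⟨(⟨w.1.1.1, ?_⟩, ⟨w.1.1.2, ?_⟩), ?_⟩, ?_, ?_⟩
    · intro u hu
      apply Subtype.ext
      exact Prod.ext (z.1.1.2 u hu) (z.1.2.2 u hu)
    · intro u hu
      exact congrArg (fun q : tsbX H => q.1.1) (w.2 u hu)
    · intro u hu
      exact congrArg (fun q : tsbX H => q.1.2) (w.2 u hu)
    · intro h
      exact w.1.2 (congrArg Subtype.val h)
    · intro z
      rfl
    · intro w
      rfl
  rw [Nat.card_prod, h2, h3] at h1
  have h4 : ((Nat.card (fx (G ⧸ H) U) : ℤ)) * (Nat.card (fx (G ⧸ H) U) : ℤ) =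
      (Nat.card (fx (G ⧸ H) U) : ℤ) + (Nat.card (fx (tsbX H) U) : ℤ) := by
    exact_mod_cast h1
  rw [h4]
  ring

theorem pc_sq (H : Subgroup G) [Finite (G ⧸ H)] (Q : AddSubgroup (Subgroup G → ℤ))
    (h2 : ∀ b : G, (2 : ℤ) • pc (H ⊓ cj b H) ∈ Q)
    (h1 : ∀ b : G, (∃ Y : Subgroup G, H ⊓ cj b H ≤ Y ∧ (H ⊓ cj b H).relIndex Y = 2) →
      pc (H ⊓ cj b H) ∈ Q) : pc H * pc H - pc H ∈ Q := by
  classical
  have : Finite (tsbX H) := Subtype.finite
  have : Fintype (orbitRel.Quotient G (tsbX H)) := Fintype.ofFinite _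
  have hA : ∀ z : tsbX H, (2 : ℤ) • pc (stabilizer G z) ∈ Q := by
    intro z
    obtain ⟨h, c, hc⟩ := tsb_rep z
    rw [← tsb_pc_smul h z, hc]
    exact h2 c
  have hB : ∀ (z : tsbX H) (g : G), g • z = tsbS z → pc (stabilizer G z) ∈ Q := by
    intro z g hg
    obtain ⟨h, c, hc⟩ := tsb_rep z
    have h3 : (h * g * h⁻¹) • (h • z) = tsbS (h • z) := by
      rw [tsbS_smul, ← hg, mul_smul, inv_smul_smul, mul_smul]
    have h4 := tsb_rel (h • z) _ h3
    rw [← tsb_pc_smul h z, hc]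
    rw [hc] at h4
    exact h1 c ⟨_, h4⟩
  have hrel : ∀ x y : tsbX H, (Quotient.mk'' x : orbitRel.Quotient G (tsbX H)) = Quotient.mk'' y →
      ∃ g : G, g • y = x := by
    intro x y h
    rw [Quotient.eq''] at h
    exact h
  have hmk : ∀ (g : G) (x : tsbX H),
      (Quotient.mk'' (g • x) : orbitRel.Quotient G (tsbX H)) = Quotient.mk'' x := by
    intro g x
    rw [Quotient.eq'']
    exact ⟨g, rfl⟩
  have hout : ∀ ω : orbitRel.Quotient G (tsbX H),
      (Quotient.mk'' ω.out : orbitRel.Quotient G (tsbX H)) = ω := fun ω => Quotient.out_eq' ω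
  rw [← tsb_pch, pch_eq_sum, ← QuotientAddGroup.eq_zero_iff]
  have hsum : ((∑ ω : orbitRel.Quotient G (tsbX H), pc (stabilizer G ω.out) :
      Subgroup G → ℤ) : (Subgroup G → ℤ) ⧸ Q) =
      ∑ ω : orbitRel.Quotient G (tsbX H),
        ((pc (stabilizer G ω.out) : Subgroup G → ℤ) : (Subgroup G → ℤ) ⧸ Q) :=
    map_sum (QuotientAddGroup.mk' Q) _ _
  rw [hsum]
  refine Finset.sum_involution (fun ω _ => Quotient.mk'' (tsbS ω.out)) ?_ ?_ ?_ ?_
  · intro ω _
    obtain ⟨g, hg⟩ := hrel _ _ (hout (Quotient.mk'' (tsbS ω.out)))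
    rw [← hg, tsb_pc_smul, tsb_stab_S, ← QuotientAddGroup.mk_add, QuotientAddGroup.eq_zero_iff,
      ← two_zsmul]
    exact hA _
  · intro ω _ hne heq
    apply hne
    rw [QuotientAddGroup.eq_zero_iff]
    obtain ⟨g, hg⟩ := hrel _ _ (heq.trans (hout ω).symm)
    exact hB _ g hg
  · intro ω _
    exact Finset.mem_univ _
  · intro ω _
    obtain ⟨g, hg⟩ := hrel _ _ (hout (Quotient.mk'' (tsbS ω.out)))
    rw [← hg, tsbS_smul, tsbS_S, hmk]
    exact hout ω

end Pool.Agent.TS
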