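import Pool.Agent.TS.Defs

/-!
# TS/S-Pow: powers of an even bounded function (paper 1.4)

The product of the factors `Y - c` over the even numbers `c ≠ 0` between `-B` and `B` is `Y ^ r` minus an even polynomial of
smaller degree; multiplied by `Y` it vanishes at all the values.
-/

namespace Pool.Agent.TS

private theorem Pow_prod (F : Finset ℤ) (hF : ∀ c ∈ F, (2 : ℤ) ∣ c) : ∃ a : ℕ → ℤ, ∀ Y : ℤ,
    ∏ c ∈ F, (Y - c) = Y ^ F.card - 2 * ∑ j ∈ Finset.range F.card, a j * Y ^ j := by
  induction F using Finset.induction_on with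
  | empty => exact ⟨fun _ => 0, fun Y => by simp⟩
  | insert c F hc ih =>
    obtain ⟨a, ha⟩ := ih fun x hx => hF x (Finset.mem_insert_of_mem hx)
    obtain ⟨m, hm⟩ := hF c (Finset.mem_insert_self c F)
    refine ⟨fun j => (if j = 0 then 0 else a (j - 1)) + (if j < F.card then -2 * m * a j else m), fun Y => ?_⟩
    rw [Finset.prod_insert hc, ha Y, Finset.card_insert_of_notMem hc, hm]
    have h1 : ∑ j ∈ Finset.range (F.card + 1),
        ((if j = 0 then 0 else a (j - 1)) + (if j < F.card then -2 * m * a j else m)) * Y ^ j =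
        ∑ j ∈ Finset.range (F.card + 1), (if j = 0 then 0 else a (j - 1)) * Y ^ j +
          ∑ j ∈ Finset.range (F.card + 1), (if j < F.card then -2 * m * a j else m) * Y ^ j := by
      rw [← Finset.sum_add_distrib]
      exact Finset.sum_congr rfl fun j _ => add_mul _ _ _
    have h2 : ∑ j ∈ Finset.range (F.card + 1), (if j = 0 then 0 else a (j - 1)) * Y ^ j =
        Y * ∑ j ∈ Finset.range F.card, a j * Y ^ j := by
      rw [Finset.sum_range_succ', Finset.mul_sum]
      simp only [if_true, zero_mul, add_zero, Nat.add_eq_zero_iff, one_ne_zero, and_false, if_false,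
        Nat.add_sub_cancel]
      exact Finset.sum_congr rfl fun j _ => by ring
    have h3 : ∑ j ∈ Finset.range (F.card + 1), (if j < F.card then -2 * m * a j else m) * Y ^ j =
        -2 * m * ∑ j ∈ Finset.range F.card, a j * Y ^ j + m * Y ^ F.card := by
      rw [Finset.sum_range_succ, Finset.mul_sum, if_neg (lt_irrefl _)]
      congr 1
      refine Finset.sum_congr rfl fun j hj => ?_
      rw [if_pos (Finset.mem_range.1 hj)]
      ring
    rw [h1, h2, h3]
    ring

theorem even_pow {ι : Type} (S : Set ι) (y : ι → ℤ) (B : ℤ) (hb : ∀ i ∈ S, |y i| ≤ B)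
    (he : ∀ i ∈ S, (2 : ℤ) ∣ y i) : ∃ (r : ℕ) (c : ℕ → ℤ), ∀ i ∈ S,
      y i ^ (r + 1) = 2 * ∑ j ∈ Finset.range r, c j * y i ^ (j + 1) := by
  obtain ⟨a, ha⟩ := Pow_prod (((Finset.Icc (-B) B).filter fun c => (2 : ℤ) ∣ c).erase 0)
    fun c hc => (Finset.mem_filter.1 (Finset.mem_of_mem_erase hc)).2
  refine ⟨(((Finset.Icc (-B) B).filter fun c => (2 : ℤ) ∣ c).erase 0).card, a, fun i hi => ?_⟩
  have h1 : y i * ∏ c ∈ ((Finset.Icc (-B) B).filter fun c => (2 : ℤ) ∣ c).erase 0, (y i - c) = 0 := by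
    by_cases h : y i = 0
    · rw [h, zero_mul]
    · refine mul_eq_zero_of_right _ (Finset.prod_eq_zero (i := y i) ?_ (sub_self _))
      exact Finset.mem_erase.2 ⟨h, Finset.mem_filter.2 ⟨Finset.mem_Icc.2 (abs_le.1 (hb i hi)), he i hi⟩⟩
  rw [ha (y i), mul_sub, sub_eq_zero] at h1
  rw [pow_succ', h1, mul_left_comm, Finset.mul_sum]
  congr 1
  exact Finset.sum_congr rfl fun j _ => by ring

end Pool.Agent.TS
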