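import Pool.Agent.TS.S.Prod
import Pool.Agent.TS.S.Bool
import Pool.Agent.TS.S.Pow

/-!
# TS/S-Lem: the Boolean lemma (paper section 1)

PLAN.  `rc_mul`: `AddSubgroup.closure_induction` twice and `pc_mul`.  `sq_sub`: `y * y - y ∈ MC` for `y ∈ RC C` by `closure_induction`: generators `pc_sq` (the `2 • pc` and index `2` generators of `MC`, `hC.inf`); sum: `(y + z)² - (y + z) = (y² - y) + (z² - z) + 2 (y z)`, with
`2 • (RC C) ≤ MC` (closure induction) and `rc_mul`; negative: `y² + y = (y² - y) + 2 y`.  Then `y ^ (2 ^ j) - y ∈ MC` for all `j` (and `y ^ (2 ^ j) ∈ RC C`).  Bound: every `y ∈ RC C` is bounded on all subgroups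
(`pc H U ≤ Nat.card (G ⧸ H)`, closure induction).  `even_pow` on `𝒰` gives `r`, `c`; with `2 ^ j ≥ r + 1` (`j = r + 1`), `k = 2 ^ j - (r + 1)`: `w = ∑ c i • y ^ (i + 1 + k) ∈ RC C` (powers with exponent `≥ 1`) and `y ^ (2 ^ j) - 2 w` vanishes on `𝒰`.
-/

namespace Pool.Agent.TS

open MulAction Pool.Agent.H73.DU

variable {G : Type} [Group G]

theorem rc_mul {C : Set (Subgroup G)} (hC : Cls C) {y z : Subgroup G → ℤ} (hy : y ∈ RC C)
    (hz : z ∈ RC C) : y * z ∈ RC C := by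
  refine AddSubgroup.closure_induction (p := fun y _ => y * z ∈ RC C) ?_ ?_ ?_ ?_ hy
  · rintro _ ⟨H, hH, rfl⟩
    refine AddSubgroup.closure_induction (p := fun z _ => pc H * z ∈ RC C) ?_ ?_ ?_ ?_ hz
    · rintro _ ⟨K, hK, rfl⟩
      haveI := hC.fin H hH
      haveI := hC.fin K hK
      exact pc_mul H K (RC C) fun b => AddSubgroup.subset_closure ⟨_, hC.inf H hH K hK b, rfl⟩
    · rw [mul_zero]
      exact (RC C).zero_mem
    · intro a b _ _ ha hb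
      rw [mul_add]
      exact (RC C).add_mem ha hb
    · intro a _ ha
      rw [mul_neg]
      exact (RC C).neg_mem ha
  · rw [zero_mul]
    exact (RC C).zero_mem
  · intro a b _ _ ha hb
    rw [add_mul]
    exact (RC C).add_mem ha hb
  · intro a _ ha
    rw [neg_mul]
    exact (RC C).neg_mem ha

private theorem lem_two {C : Set (Subgroup G)} (𝒰 : Set (Subgroup G)) {y : Subgroup G → ℤ}
    (hy : y ∈ RC C) : (2 : ℤ) • y ∈ MC C 𝒰 := by
  refine AddSubgroup.closure_induction (p := fun y _ => (2 : ℤ) • y ∈ MC C 𝒰) ?_ ?_ ?_ ?_ hy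
  · rintro _ ⟨H, hH, rfl⟩
    exact AddSubgroup.subset_closure (Or.inl ⟨H, hH, rfl⟩)
  · rw [smul_zero]
    exact (MC C 𝒰).zero_mem
  · intro a b _ _ ha hb
    rw [smul_add]
    exact (MC C 𝒰).add_mem ha hb
  · intro a _ ha
    rw [smul_neg]
    exact (MC C 𝒰).neg_mem ha

private theorem lem_sq {C : Set (Subgroup G)} (hC : Cls C) (𝒰 : Set (Subgroup G)) {y : Subgroup G → ℤ}
    (hy : y ∈ RC C) : y * y - y ∈ MC C 𝒰 := by
  refine AddSubgroup.closure_induction (p := fun y _ => y * y - y ∈ MC C 𝒰) ?_ ?_ ?_ ?_ hy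
  · rintro _ ⟨H, hH, rfl⟩
    haveI := hC.fin H hH
    refine pc_sq H (MC C 𝒰) (fun b => ?_) fun b hb => ?_
    · exact AddSubgroup.subset_closure (Or.inl ⟨_, hC.inf H hH H hH b, rfl⟩)
    · exact AddSubgroup.subset_closure (Or.inr (Or.inl ⟨_, hC.inf H hH H hH b, hb, rfl⟩))
  · rw [mul_zero, sub_zero]
    exact (MC C 𝒰).zero_mem
  · intro a b ha' hb' ha hb
    have h1 : (a + b) * (a + b) - (a + b) = (a * a - a) + (b * b - b) + (2 : ℤ) • (a * b) := by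
      rw [two_smul]
      ring
    rw [h1]
    exact (MC C 𝒰).add_mem ((MC C 𝒰).add_mem ha hb) (lem_two 𝒰 (rc_mul hC ha' hb'))
  · intro a ha' ha
    have h1 : -a * -a - -a = (a * a - a) + (2 : ℤ) • a := by
      rw [two_smul]
      ring
    rw [h1]
    exact (MC C 𝒰).add_mem ha (lem_two 𝒰 ha')

private theorem lem_pow {C : Set (Subgroup G)} (hC : Cls C) {y : Subgroup G → ℤ} (hy : y ∈ RC C)
    (i : ℕ) : y ^ (i + 1) ∈ RC C := by
  induction i with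
  | zero =>
    rw [zero_add, pow_one]
    exact hy
  | succ i ih =>
    rw [pow_succ]
    exact rc_mul hC ih hy

private theorem lem_two_pow {C : Set (Subgroup G)} (hC : Cls C) (𝒰 : Set (Subgroup G))
    {y : Subgroup G → ℤ} (hy : y ∈ RC C) (j : ℕ) : y ^ (2 ^ j) ∈ RC C ∧ y ^ (2 ^ j) - y ∈ MC C 𝒰 := by
  induction j with
  | zero =>
    rw [pow_zero, pow_one, sub_self]
    exact ⟨hy, (MC C 𝒰).zero_mem⟩
  | succ j ih =>
    have h1 : y ^ (2 ^ (j + 1)) = y ^ (2 ^ j) * y ^ (2 ^ j) := by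
      rw [← pow_add]
      congr 1
      rw [pow_succ]
      ring
    rw [h1]
    refine ⟨rc_mul hC ih.1 ih.1, ?_⟩
    have h2 : y ^ (2 ^ j) * y ^ (2 ^ j) - y = (y ^ (2 ^ j) * y ^ (2 ^ j) - y ^ (2 ^ j)) + (y ^ (2 ^ j) - y) := by
      ring
    rw [h2]
    exact (MC C 𝒰).add_mem (lem_sq hC 𝒰 ih.1) ih.2

private theorem lem_bdd {C : Set (Subgroup G)} (hC : Cls C) {y : Subgroup G → ℤ} (hy : y ∈ RC C) :
    ∃ B : ℤ, ∀ U, |y U| ≤ B := by
  refine AddSubgroup.closure_induction (p := fun y _ => ∃ B : ℤ, ∀ U, |y U| ≤ B) ?_ ?_ ?_ ?_ hy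
  · rintro _ ⟨H, hH, rfl⟩
    haveI := hC.fin H hH
    refine ⟨(Nat.card (G ⧸ H) : ℤ), fun U => ?_⟩
    have h1 : pc H U = ((Nat.card (fx (G ⧸ H) U) : ℕ) : ℤ) := rfl
    rw [h1, abs_of_nonneg (Int.natCast_nonneg _)]
    exact_mod_cast Nat.card_le_card_of_injective (Subtype.val : fx (G ⧸ H) U → G ⧸ H) Subtype.val_injective
  · exact ⟨0, fun U => by rw [Pi.zero_apply, abs_zero]⟩
  · rintro a b _ _ ⟨A, hA⟩ ⟨B, hB⟩
    exact ⟨A + B, fun U => (abs_add_le _ _).trans (add_le_add (hA U) (hB U))⟩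
  · rintro a _ ⟨A, hA⟩
    exact ⟨A, fun U => by rw [Pi.neg_apply, abs_neg]; exact hA U⟩

theorem lemS {C : Set (Subgroup G)} (hC : Cls C) (𝒰 : Set (Subgroup G)) {y : Subgroup G → ℤ}
    (hy : y ∈ RC C) (he : ∀ U ∈ 𝒰, (2 : ℤ) ∣ y U) : y ∈ MC C 𝒰 := by
  obtain ⟨B, hB⟩ := lem_bdd hC hy
  obtain ⟨r, c, hc⟩ := even_pow 𝒰 y B (fun U _ => hB U) he
  obtain ⟨k, hk⟩ : ∃ k, 2 ^ (r + 1) = (r + 1) + k := Nat.exists_eq_add_of_le Nat.lt_two_pow_self.le
  have h1 := (lem_two_pow hC 𝒰 hy (r + 1)).2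
  have h2 : (∑ i ∈ Finset.range r, c i • y ^ ((i + k) + 1)) ∈ RC C :=
    (RC C).sum_mem fun i _ => (RC C).zsmul_mem (lem_pow hC hy (i + k)) (c i)
  have h3 : y ^ (2 ^ (r + 1)) - (2 : ℤ) • (∑ i ∈ Finset.range r, c i • y ^ ((i + k) + 1)) ∈ MC C 𝒰 := by
    refine AddSubgroup.subset_closure (Or.inr (Or.inr fun U hU => ?_))
    rw [Pi.sub_apply, Pi.pow_apply, Pi.smul_apply, Finset.sum_apply, hk, pow_add, hc U hU, smul_eq_mul,
      mul_assoc, Finset.sum_mul, sub_eq_zero]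
    congr 1
    refine Finset.sum_congr rfl fun i _ => ?_
    rw [Pi.smul_apply, Pi.pow_apply, smul_eq_mul]
    ring
  have h4 : y = (y ^ (2 ^ (r + 1)) - (2 : ℤ) • (∑ i ∈ Finset.range r, c i • y ^ ((i + k) + 1))) +
      (2 : ℤ) • (∑ i ∈ Finset.range r, c i • y ^ ((i + k) + 1)) - (y ^ (2 ^ (r + 1)) - y) := by
    abel
  rw [h4]
  exact (MC C 𝒰).sub_mem ((MC C 𝒰).add_mem h3 (lem_two 𝒰 h2)) h1

end Pool.Agent.TS
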